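import Pool.Agent.K4L.PC4

/-!
# Kaplansky's 4-in-a-line: First wins against almost all second stones of Second

In a play `m` the stones of First are `m 0, m 2, m 4, ...` and those of Second are
`m 1, m 3, m 5, ...`. We write `a = m 0`, `b = m 2`, `c = m 4`, `p = m 1`, `q = m 3`, `r = m 5`.
-/

namespace Pool.Agent.Results.MP_9fbf64_co.SecondReply

open Pool.Agent.K4L

theorem result : ∃ s : List (ℤ × ℤ) → ℤ × ℤ, IsStrategy s ∧
    ∀ m : ℕ → ℤ × ℤ, Function.Injective m →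
      (∀ k, m (2 * k) = s ((List.range (2 * k)).map m)) →
      -- `p` is off the line `a b`
      ¬ Col (m 0) (m 2) (m 1) ∧
      -- `q` off `a b`, and `p q` meets `a b` in no lattice point except possibly `a` or `b`
      (¬ Col (m 0) (m 2) (m 3) →
        (∀ z, Col (m 0) (m 2) z → Col (m 1) (m 3) z → z = m 0 ∨ z = m 2) →
          FirstWinsPlay 4 m) ∧
      -- `q` off `a b`, and `p q` meets `a b` in another lattice point
      (¬ Col (m 0) (m 2) (m 3) →
        (∃ z, Col (m 0) (m 2) z ∧ Col (m 1) (m 3) z ∧ z ≠ m 0 ∧ z ≠ m 2) →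
          Col (m 1) (m 3) (m 4) ∧ ¬ Col (m 0) (m 2) (m 4) ∧
          (¬ Col (m 2) (m 4) (m 5) →
            (Col (m 0) (m 4) (m 5) → ∀ z, Col (m 2) (m 4) z → z ≠ m 2 → z ≠ m 4 →
              ¬ Col (m 1) (m 5) z ∧ ¬ Col (m 3) (m 5) z) → FirstWinsPlay 4 m)) ∧
      -- `q` on `a b`
      (Col (m 0) (m 2) (m 3) →
        m 4 = (2 * (m 1).1 - (m 3).1, 2 * (m 1).2 - (m 3).2) ∧
        ((∀ z, Col (m 0) (m 4) z ∨ Col (m 2) (m 4) z → z ≠ m 0 → z ≠ m 2 → z ≠ m 4 →
          ¬ Col (m 1) (m 5) z ∧ ¬ Col (m 3) (m 5) z) → FirstWinsPlay 4 m)) :=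
  partialC

end Pool.Agent.Results.MP_9fbf64_co.SecondReply
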